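import Pool.Agent.Helper93.LCH.Stmts

/-!
Row CE of the project LCH (MP_b555a2_al): Conradian orders with a given nonnegative character.
-/

namespace LCH18

open LCH Filter

universe v

variable {G : Type v} [Group G]

/-- the real character of a homomorphism to the integers -/
theorem exists_char (hG : LI G) (H : Subgroup G) (hfg : H.FG) (hne : H ≠ ⊥) :
    ∃ χ : G → ℝ, IsChar H χ ∧ NZ H χ := by
  classical
  obtain ⟨φ, hφ⟩ := hG H hfg hne
  refine ⟨fun g => if h : g ∈ H then ((Multiplicative.toAdd (φ ⟨g, h⟩) : ℤ) : ℝ) else 0, ?_, ?_⟩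
  · intro g hg h hh
    have hgh : g * h ∈ H := H.mul_mem hg hh
    simp only [dif_pos hg, dif_pos hh, dif_pos hgh]
    have e : (⟨g * h, hgh⟩ : H) = ⟨g, hg⟩ * ⟨h, hh⟩ := rfl
    rw [e, map_mul, toAdd_mul]
    push_cast
    rfl
  · by_contra hcon
    apply hφ
    ext x
    obtain ⟨x, hx⟩ := x
    by_contra hne'
    apply hcon
    refine ⟨x, hx, ?_⟩
    simp only [dif_pos hx]
    intro h0
    apply hne'
    have h1 : Multiplicative.toAdd (φ ⟨x, hx⟩) = 0 := by exact_mod_cast h0
    rw [h1]
    rfl

theorem char_one {M : Subgroup G} {χ : G → ℝ} (h : IsChar M χ) : χ 1 = 0 := by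
  have h1 := h 1 M.one_mem 1 M.one_mem
  rw [mul_one] at h1
  linarith

theorem char_inv {M : Subgroup G} {χ : G → ℝ} (h : IsChar M χ) {x : G} (hx : x ∈ M) :
    χ x⁻¹ = - χ x := by
  have h1 := h x hx x⁻¹ (M.inv_mem hx)
  rw [mul_inv_cancel, char_one h] at h1
  linarith

/-- finite approximation -/
def App (F : Finset G) (P : Set G) : Prop :=
  (∀ x ∈ P, x ∈ Subgroup.closure (F : Set G)) ∧ (1 : G) ∉ P ∧ (∀ x ∈ P, ∀ y ∈ P, x * y ∈ P) ∧
  (∀ x ∈ F, x = 1 ∨ x ∈ P ∨ x⁻¹ ∈ P) ∧
  ∀ S : Finset G, S ⊆ F → Subgroup.closure (S : Set G) ≠ ⊥ →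
    ∃ χ : G → ℝ, IsChar (Subgroup.closure (S : Set G)) χ ∧
      NZ (Subgroup.closure (S : Set G)) χ ∧
      ∀ g ∈ Subgroup.closure (S : Set G), g ∈ P → 0 ≤ χ g

/-- a character that vanishes on generators vanishes -/
theorem char_zero {S : Set G} {χ : G → ℝ} (h : IsChar (Subgroup.closure S) χ)
    (h0 : ∀ x ∈ S, χ x = 0) : ∀ x ∈ Subgroup.closure S, χ x = 0 := by
  intro x hx
  induction hx using Subgroup.closure_induction with
  | mem x hx => exact h0 x hx
  | one => exact char_one h
  | mul x y hx hy ihx ihy => rw [h x hx y hy, ihx, ihy, add_zero]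
  | inv x hx ih => rw [char_inv h hx, ih, neg_zero]

theorem exists_app (hG : LI G) : ∀ (n : ℕ) (F : Finset G), F.card ≤ n →
    ∃ P : Set G, App F P := by
  classical
  intro n
  induction n with
  | zero =>
    intro F hF
    have hF0 : F = ∅ := Finset.card_eq_zero.1 (Nat.le_zero.1 hF)
    subst hF0
    refine ⟨∅, fun x hx => absurd hx (Set.notMem_empty x), Set.notMem_empty _,
      fun x hx => absurd hx (Set.notMem_empty x), fun x hx => absurd hx (Finset.notMem_empty x), ?_⟩
    intro S hS hne
    exfalso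
    apply hne
    have : S = ∅ := Finset.subset_empty.1 hS
    rw [this, Finset.coe_empty, Subgroup.closure_empty]
  | succ n ih =>
    intro F hF
    by_cases hbot : Subgroup.closure (F : Set G) = ⊥
    · refine ⟨∅, fun x hx => absurd hx (Set.notMem_empty x), Set.notMem_empty _,
        fun x hx => absurd hx (Set.notMem_empty x), ?_, ?_⟩
      · intro x hx
        left
        have h1 : x ∈ Subgroup.closure (F : Set G) := Subgroup.subset_closure hx
        rw [hbot] at h1
        exact Subgroup.mem_bot.1 h1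
      · intro S hS hne
        exfalso
        apply hne
        rw [eq_bot_iff, ← hbot]
        exact Subgroup.closure_mono (by exact_mod_cast hS)
    · obtain ⟨χ, h1, h2⟩ := exists_char hG (Subgroup.closure (F : Set G)) ⟨F, rfl⟩ hbot
      have hex : ∃ x ∈ F, χ x ≠ 0 := by
        by_contra hcon
        push Not at hcon
        obtain ⟨g, hg, hg'⟩ := h2
        exact hg' (char_zero h1 hcon g hg)
      obtain ⟨x0, hx0, hx0'⟩ := hex
      set F1 : Finset G := F.filter (fun x => χ x = 0) with hF1
      have hcard : F1.card ≤ n := by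
        have : F1.card < F.card := by
          apply Finset.card_lt_card
          refine ⟨Finset.filter_subset _ _, ?_⟩
          intro hsub
          exact hx0' (Finset.mem_filter.1 (hsub hx0)).2
        omega
      obtain ⟨P1, hP1, hP2, hP3, hP4, hP5⟩ := ih F1 hcard
      have hle : Subgroup.closure (F1 : Set G) ≤ Subgroup.closure (F : Set G) :=
        Subgroup.closure_mono (Finset.coe_subset.2 (Finset.filter_subset _ _))
      have hker : ∀ x ∈ Subgroup.closure (F1 : Set G), χ x = 0 := by
        apply char_zero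
        · intro g hg h hh
          exact h1 g (hle hg) h (hle hh)
        · intro x hx
          exact (Finset.mem_filter.1 (Finset.mem_coe.1 hx)).2
      refine ⟨{x | x ∈ Subgroup.closure (F : Set G) ∧ 0 < χ x} ∪ P1, ?_, ?_, ?_, ?_, ?_⟩
      · rintro x (hx | hx)
        · exact hx.1
        · exact hle (hP1 x hx)
      · rintro (h | h)
        · have := h.2
          rw [char_one h1] at this
          exact lt_irrefl _ this
        · exact hP2 h
      · rintro x (hx | hx) y (hy | hy)
        · left
          refine ⟨Subgroup.mul_mem _ hx.1 hy.1, ?_⟩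
          rw [h1 x hx.1 y hy.1]
          exact add_pos hx.2 hy.2
        · left
          have hy' := hP1 y hy
          refine ⟨Subgroup.mul_mem _ hx.1 (hle hy'), ?_⟩
          rw [h1 x hx.1 y (hle hy'), hker y hy', add_zero]
          exact hx.2
        · left
          have hx' := hP1 x hx
          refine ⟨Subgroup.mul_mem _ (hle hx') hy.1, ?_⟩
          rw [h1 x (hle hx') y hy.1, hker x hx', zero_add]
          exact hy.2
        · right
          exact hP3 x hx y hy
      · intro x hx
        have hxc : x ∈ Subgroup.closure (F : Set G) := Subgroup.subset_closure hx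
        rcases lt_trichotomy (χ x) 0 with h | h | h
        · right; right; left
          refine ⟨Subgroup.inv_mem _ hxc, ?_⟩
          rw [char_inv h1 hxc]
          linarith
        · rcases hP4 x (Finset.mem_filter.2 ⟨hx, h⟩) with h' | h' | h'
          · exact Or.inl h'
          · exact Or.inr (Or.inl (Or.inr h'))
          · exact Or.inr (Or.inr (Or.inr h'))
        · right; left; left
          exact ⟨hxc, h⟩
      · intro S hS hne
        have hSle : Subgroup.closure (S : Set G) ≤ Subgroup.closure (F : Set G) :=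
          Subgroup.closure_mono (by exact_mod_cast hS)
        have hSc : IsChar (Subgroup.closure (S : Set G)) χ :=
          fun g hg h hh => h1 g (hSle hg) h (hSle hh)
        by_cases hnz : NZ (Subgroup.closure (S : Set G)) χ
        · refine ⟨χ, hSc, hnz, ?_⟩
          rintro g hg (hgP | hgP)
          · exact hgP.2.le
          · exact (hker g (hP1 g hgP)).ge
        · have hz : ∀ x ∈ Subgroup.closure (S : Set G), χ x = 0 := by
            intro x hx
            by_contra hx'
            exact hnz ⟨x, hx, hx'⟩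
          have hS1 : S ⊆ F1 := by
            intro x hx
            exact Finset.mem_filter.2 ⟨hS hx, hz x (Subgroup.subset_closure hx)⟩
          obtain ⟨ψ, q1, q2, q3⟩ := hP5 S hS1 hne
          refine ⟨ψ, q1, q2, ?_⟩
          rintro g hg (hgP | hgP)
          · exfalso
            have := hgP.2
            rw [hz g hg] at this
            exact lt_irrefl _ this
          · exact q3 g hg hgP

/-- characters are bounded in terms of their values on generators -/
theorem char_bdd (S : Finset G) : ∀ x ∈ Subgroup.closure (S : Set G), ∃ C : ℝ,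
    ∀ χ : G → ℝ, IsChar (Subgroup.closure (S : Set G)) χ → (∑ s ∈ S, |χ s|) = 1 → |χ x| ≤ C := by
  intro x hx
  induction hx using Subgroup.closure_induction with
  | mem x hx =>
    refine ⟨1, fun χ _ h1 => ?_⟩
    rw [← h1]
    exact Finset.single_le_sum (f := fun s => |χ s|) (fun s _ => abs_nonneg _)
      (by exact_mod_cast hx)
  | one =>
    refine ⟨0, fun χ h _ => ?_⟩
    rw [char_one h, abs_zero]
  | mul x y hx hy ihx ihy =>
    obtain ⟨C, hC⟩ := ihx
    obtain ⟨D, hD⟩ := ihy
    refine ⟨C + D, fun χ h h1 => ?_⟩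
    rw [h x hx y hy]
    exact (abs_add_le _ _).trans (add_le_add (hC χ h h1) (hD χ h h1))
  | inv x hx ih =>
    obtain ⟨C, hC⟩ := ih
    refine ⟨C, fun χ h h1 => ?_⟩
    rw [char_inv h hx, abs_neg]
    exact hC χ h h1

/-- normalised characters -/
theorem char_norm (S : Finset G) (P : Set G)
    (h : ∃ χ : G → ℝ, IsChar (Subgroup.closure (S : Set G)) χ ∧
      NZ (Subgroup.closure (S : Set G)) χ ∧
      ∀ g ∈ Subgroup.closure (S : Set G), g ∈ P → 0 ≤ χ g) :
    ∃ χ : G → ℝ, IsChar (Subgroup.closure (S : Set G)) χ ∧ (∑ s ∈ S, |χ s|) = 1 ∧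
      ∀ g ∈ Subgroup.closure (S : Set G), g ∈ P → 0 ≤ χ g := by
  obtain ⟨χ, h1, h2, h3⟩ := h
  have hpos : 0 < ∑ s ∈ S, |χ s| := by
    by_contra hcon
    have h0 : ∑ s ∈ S, |χ s| = 0 :=
      le_antisymm (not_lt.1 hcon) (Finset.sum_nonneg (fun s _ => abs_nonneg _))
    rw [Finset.sum_eq_zero_iff_of_nonneg (fun s _ => abs_nonneg _)] at h0
    obtain ⟨g, hg, hg'⟩ := h2
    apply hg'
    apply char_zero h1 _ g hg
    intro x hx
    exact abs_eq_zero.1 (h0 x (by exact_mod_cast hx))
  obtain ⟨c, hc⟩ : ∃ c : ℝ, c = ∑ s ∈ S, |χ s| := ⟨_, rfl⟩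
  rw [← hc] at hpos
  refine ⟨fun g => χ g / c, ?_, ?_, ?_⟩
  · intro g hg h hh
    change χ (g * h) / c = χ g / c + χ h / c
    rw [h1 g hg h hh, add_div]
  · have e : ∀ s ∈ S, abs (χ s / c) = abs (χ s) / c := by
      intro s _
      rw [abs_div, abs_of_pos hpos]
    rw [Finset.sum_congr rfl e, ← Finset.sum_div, ← hc, div_self hpos.ne']
  · intro g hg hgP
    exact div_nonneg (h3 g hg hgP) hpos.le

/-- Conradian orders without a condition -/
theorem exists_sit (hG : LI G) (M : Subgroup G) : ∃ s : Sit G, s.M = M := by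
  classical
  have hP : ∀ F : Finset G, ∃ P : Set G, App F P := fun F => exists_app hG F.card F le_rfl
  choose P hP using hP
  let U : Ultrafilter (Finset G) := Ultrafilter.of atTop
  have hU : (U : Filter (Finset G)) ≤ atTop := Ultrafilter.of_le atTop
  have hge : ∀ F0 : Finset G, ∀ᶠ F in (U : Filter (Finset G)), F0 ⊆ F := by
    intro F0
    apply hU
    exact eventually_ge_atTop F0
  refine ⟨{
    M := M
    P := {x | x ∈ M ∧ ∀ᶠ F in (U : Filter (Finset G)), x ∈ P F}
    sub := fun g hg => hg.1
    one := ?_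
    mul := ?_
    tot := ?_
    con := ?_ }, rfl⟩
  · intro h
    obtain ⟨F, hF⟩ := h.2.exists
    exact (hP F).2.1 hF
  · intro x hx y hy
    refine ⟨M.mul_mem hx.1 hy.1, ?_⟩
    filter_upwards [hx.2, hy.2] with F h1 h2
    exact (hP F).2.2.1 x h1 y h2
  · intro x hx
    by_cases h1 : x = 1
    · exact Or.inl h1
    right
    have h2 : ∀ᶠ F in (U : Filter (Finset G)), x ∈ P F ∨ x⁻¹ ∈ P F := by
      filter_upwards [hge {x}] with F hF
      rcases (hP F).2.2.2.1 x (hF (Finset.mem_singleton_self x)) with h | h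
      · exact absurd h h1
      · exact h
    rcases Ultrafilter.eventually_or.1 h2 with h | h
    · exact Or.inl ⟨hx, h⟩
    · exact Or.inr ⟨M.inv_mem hx, h⟩
  · intro L hL hne hLM
    obtain ⟨S, rfl⟩ := hL
    have hch : ∀ F : Finset G, ∃ χ : G → ℝ, S ⊆ F →
        (IsChar (Subgroup.closure (S : Set G)) χ ∧ (∑ s ∈ S, |χ s|) = 1 ∧
          ∀ g ∈ Subgroup.closure (S : Set G), g ∈ P F → 0 ≤ χ g) := by
      intro F
      by_cases hS : S ⊆ F
      · obtain ⟨χ, h⟩ := char_norm S (P F) ((hP F).2.2.2.2 S hS hne)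
        exact ⟨χ, fun _ => h⟩
      · exact ⟨fun _ => 0, fun h => absurd h hS⟩
    choose χ hχ using hch
    have hlim : ∀ x : G, ∃ l : ℝ, x ∈ Subgroup.closure (S : Set G) →
        Tendsto (fun F => χ F x) (U : Filter (Finset G)) (nhds l) := by
      intro x
      by_cases hx : x ∈ Subgroup.closure (S : Set G)
      · obtain ⟨C, hC⟩ := char_bdd S x hx
        have hcomp : IsCompact (Set.Icc (-C) C) := isCompact_Icc
        have hmem : ∀ᶠ F in (U : Filter (Finset G)), χ F x ∈ Set.Icc (-C) C := by
          filter_upwards [hge S] with F hF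
          exact abs_le.1 (hC (χ F) (hχ F hF).1 (hχ F hF).2.1)
        obtain ⟨l, _, hl⟩ := hcomp.ultrafilter_le_nhds (U.map (fun F => χ F x)) (by
          rw [le_principal_iff]
          exact hmem)
        exact ⟨l, fun _ => hl⟩
      · exact ⟨0, fun h => absurd h hx⟩
    choose l hl using hlim
    refine ⟨l, ?_, ?_, ?_⟩
    · intro g hg h hh
      have hgh : g * h ∈ Subgroup.closure (S : Set G) := Subgroup.mul_mem _ hg hh
      refine tendsto_nhds_unique (hl _ hgh) ?_
      refine Tendsto.congr' ?_ ((hl g hg).add (hl h hh))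
      filter_upwards [hge S] with F hF
      exact ((hχ F hF).1 g hg h hh).symm
    · have hsum : (∑ s ∈ S, |l s|) = 1 := by
        have t1 : Tendsto (fun F => ∑ s ∈ S, |χ F s|) (U : Filter (Finset G))
            (nhds (∑ s ∈ S, |l s|)) := by
          apply tendsto_finsetSum
          intro s hs
          exact (hl s (Subgroup.subset_closure (by exact_mod_cast hs))).abs
        have t2 : Tendsto (fun F => ∑ s ∈ S, |χ F s|) (U : Filter (Finset G)) (nhds 1) := by
          refine Tendsto.congr' ?_ tendsto_const_nhds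
          filter_upwards [hge S] with F hF
          exact (hχ F hF).2.1.symm
        exact tendsto_nhds_unique t1 t2
      by_contra hcon
      have h0 : ∀ s ∈ S, |l s| = 0 := by
        intro s hs
        by_contra hs'
        apply hcon
        exact ⟨s, Subgroup.subset_closure (by exact_mod_cast hs), fun h => hs' (by rw [h, abs_zero])⟩
      rw [Finset.sum_congr rfl h0, Finset.sum_const_zero] at hsum
      exact zero_ne_one hsum
    · intro g hg hgP
      refine ge_of_tendsto (hl g hg) ?_
      filter_upwards [hge S, hgP.2] with F hF hgF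
      exact (hχ F hF).2.2 g hg hgF

theorem st_CE : ST_CE.{v} := by
  intro G _ hG M χ hχ
  obtain ⟨s, rfl⟩ := exists_sit hG M
  refine ⟨{
    M := s.M
    P := {g | g ∈ s.M ∧ 0 < χ g} ∪ {g | g ∈ s.P ∧ χ g = 0}
    sub := ?_
    one := ?_
    mul := ?_
    tot := ?_
    con := ?_ }, rfl, ?_⟩
  · rintro g (hg | hg)
    · exact hg.1
    · exact s.sub g hg.1
  · rintro (h | h)
    · have := h.2
      rw [char_one hχ] at this
      exact lt_irrefl _ this
    · exact s.one h.1
  · rintro x (hx | hx) y (hy | hy)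
    · left
      refine ⟨s.M.mul_mem hx.1 hy.1, ?_⟩
      rw [hχ x hx.1 y hy.1]
      exact add_pos hx.2 hy.2
    · left
      have hy' := s.sub y hy.1
      refine ⟨s.M.mul_mem hx.1 hy', ?_⟩
      rw [hχ x hx.1 y hy', hy.2, add_zero]
      exact hx.2
    · left
      have hx' := s.sub x hx.1
      refine ⟨s.M.mul_mem hx' hy.1, ?_⟩
      rw [hχ x hx' y hy.1, hx.2, zero_add]
      exact hy.2
    · right
      refine ⟨s.mul x hx.1 y hy.1, ?_⟩
      rw [hχ x (s.sub x hx.1) y (s.sub y hy.1), hx.2, hy.2, add_zero]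
  · intro x hx
    rcases lt_trichotomy (χ x) 0 with h | h | h
    · right; right; left
      refine ⟨s.M.inv_mem hx, ?_⟩
      rw [char_inv hχ hx]
      linarith
    · rcases s.tot x hx with h' | h' | h'
      · exact Or.inl h'
      · exact Or.inr (Or.inl (Or.inr ⟨h', h⟩))
      · refine Or.inr (Or.inr (Or.inr ⟨h', ?_⟩))
        rw [char_inv hχ hx, h, neg_zero]
    · exact Or.inr (Or.inl (Or.inl ⟨hx, h⟩))
  · intro L hL hne hLM
    by_cases hnz : NZ L χ
    · refine ⟨χ, fun g hg h hh => hχ g (hLM hg) h (hLM hh), hnz, ?_⟩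
      rintro g _ (hgP | hgP)
      · exact hgP.2.le
      · exact hgP.2.ge
    · obtain ⟨ψ, h1, h2, h3⟩ := s.con L hL hne hLM
      refine ⟨ψ, h1, h2, ?_⟩
      rintro g hg (hgP | hgP)
      · exact absurd ⟨g, hg, hgP.2.ne'⟩ hnz
      · exact h3 g hg hgP.1
  · rintro g (hgP | hgP)
    · exact hgP.2.le
    · exact hgP.2.ge

end LCH18
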