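import Pool.Agent.Helper93.LCH.Basic3

/-!
Row UEM of the table lch_mods (MP_b555a2_al): expansion of a product.
-/

namespace LCH18

open LCH

universe u v w

set_option linter.unusedSectionVars false

variable {T : Type w} [MSys T]

/-- the measures of the coefficients of a product -/
theorem uem_le (S1 S2 : Set ℝ) (f g : ℝ → T) (A B : T)
    (hA : ∀ F : Finset ℝ, (∀ r ∈ F, r ∈ S1) → mle (∑ r ∈ F, f r) A)
    (hB : ∀ F : Finset ℝ, (∀ r ∈ F, r ∈ S2) → mle (∑ r ∈ F, g r) B)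
    (U P : Finset (ℝ × ℝ)) (hP : ∀ p ∈ U, p.1 ∈ S1 ∧ p.2 ∈ S2)
    (hU : P = (U.image Prod.fst) ×ˢ (U.image Prod.snd)) :
    mle (∑ p ∈ P, MSys.ml (f p.1) (g p.2)) (MSys.ml A B) := by
  classical
  rw [hU, ← ml_sum_sum]
  apply mle_ml
  · apply hA
    intro r hr
    obtain ⟨p, hp, rfl⟩ := Finset.mem_image.1 hr
    exact (hP p hp).1
  · apply hB
    intro r hr
    obtain ⟨p, hp, rfl⟩ := Finset.mem_image.1 hr
    exact (hP p hp).2

theorem sub_prod (U : Finset (ℝ × ℝ)) : U ⊆ (U.image Prod.fst) ×ˢ (U.image Prod.snd) := by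
  classical
  intro p hp
  exact Finset.mem_product.2 ⟨Finset.mem_image_of_mem _ hp, Finset.mem_image_of_mem _ hp⟩

theorem st_UEM (hX : ST_XMUL.{max u v}) : ST_UEM.{u, v, w} := by
  classical
  intro K _ G _ T _ a b L χ ψ hnh h1 h2
  obtain ⟨ε1, hε1, S1, c1, hom1, prop1, meas1, strict1, exp1⟩ := h1
  obtain ⟨ε2, hε2, S2, c2, hom2, prop2, meas2, strict2, exp2⟩ := h2
  have E1 : Expn (Phi K L χ ψ (min ε1 ε2)) (a.evA L χ ψ) S1 (fun r => (c1 r).evA L χ ψ) :=
    exp1.mono_filt (fun B => Phi_mono (min_le_left _ _) B)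
  have E2 : Expn (Phi K L χ ψ (min ε1 ε2)) (b.evA L χ ψ) S2 (fun r => (c2 r).evA L χ ψ) :=
    exp2.mono_filt (fun B => Phi_mono (min_le_right _ _) B)
  obtain ⟨hfin, hexp⟩ := hX (Alg K L χ ψ) (Phi K L χ ψ (min ε1 ε2)) (a.evA L χ ψ) (b.evA L χ ψ)
    S1 S2 (fun r => (c1 r).evA L χ ψ) (fun r => (c2 r).evA L χ ψ) E1 E2
  obtain ⟨Wf, hWf⟩ : ∃ Wf : ℝ → Finset (ℝ × ℝ), ∀ s p, p ∈ Wf s ↔
      p.1 ∈ S1 ∧ p.2 ∈ S2 ∧ p.1 + p.2 = s := by
    refine ⟨fun s => (hfin s).toFinset, ?_⟩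
    intro s p
    rw [Set.Finite.mem_toFinset]
    rfl
  obtain ⟨S, hS⟩ : ∃ S : Set ℝ, S = {s | ∃ p : ℝ × ℝ, p.1 ∈ S1 ∧ p.2 ∈ S2 ∧ p.1 + p.2 = s} :=
    ⟨_, rfl⟩
  have hne : ∀ s ∈ S, (Wf s).Nonempty := by
    intro s hs
    rw [hS] at hs
    obtain ⟨p, hp⟩ := hs
    exact ⟨p, (hWf s p).2 hp⟩
  have hc : ∀ s : ℝ, ∃ e : Ex K G,
      (∀ t : Sit G, e.ev t = ∑ p ∈ Wf s, (Ex.mul (c1 p.1) (c2 p.2)).ev t) ∧
      (s ∈ S → (∀ g ∈ e.supp, g ∈ L) ∧ e.Hom χ s ∧
        e.meas T = ∑ p ∈ Wf s, MSys.ml ((c1 p.1).meas T) ((c2 p.2).meas T)) := by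
    intro s
    rcases Finset.eq_empty_or_nonempty (Wf s) with he | hn
    · refine ⟨.mono 0 1, ?_, ?_⟩
      · intro t
        rw [he, Finset.sum_empty]
        change (0 : K) • t.tr K 1 = 0
        rw [zero_smul]
      · intro hs
        have := hne s hs
        rw [he] at this
        exact absurd this Finset.not_nonempty_empty
    · obtain ⟨e, h1, h2, h3, h4⟩ := exists_sum.{u, v, w} (Wf s) hn
        (fun p => Ex.mul (c1 p.1) (c2 p.2))
      refine ⟨e, h4, fun _ => ⟨?_, ?_, h3 T⟩⟩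
      · intro g hg
        obtain ⟨p, hp, hg'⟩ := (h1 g).1 hg
        have hp' := (hWf s p).1 hp
        rcases hg' with hg' | hg'
        · exact (prop1 p.1 hp'.1).1 g hg'
        · exact (prop2 p.2 hp'.2.1).1 g hg'
      · apply h2
        intro p hp
        have hp' := (hWf s p).1 hp
        exact ⟨p.1, p.2, hp'.2.2, (prop1 p.1 hp'.1).2, (prop2 p.2 hp'.2.1).2⟩
  choose c hc1 hc2 using hc
  refine ⟨min ε1 ε2, lt_min hε1 hε2, S, c, ?_, ?_, ?_, ?_, ?_⟩
  · intro r hr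
    exact absurd ⟨r, hr⟩ hnh
  · intro s hs
    exact ⟨(hc2 s hs).1, (hc2 s hs).2.1⟩
  · intro F hF
    have e1 : ∑ s ∈ F, (c s).meas T =
        ∑ p ∈ F.biUnion Wf, MSys.ml ((c1 p.1).meas T) ((c2 p.2).meas T) := by
      rw [Finset.sum_biUnion]
      · exact Finset.sum_congr rfl (fun s hs => (hc2 s (hF s hs)).2.2)
      · intro s _ t _ hst
        rw [Function.onFun, Finset.disjoint_left]
        intro p hp hq
        exact hst (((hWf s p).1 hp).2.2.symm.trans ((hWf t p).1 hq).2.2)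
    rw [e1]
    refine mle_trans (sum_mle_of_subset _ (sub_prod (F.biUnion Wf))) ?_
    refine uem_le S1 S2 (fun r => (c1 r).meas T) (fun r => (c2 r).meas T) _ _ meas1 meas2
      (F.biUnion Wf) _ ?_ rfl
    intro p hp
    obtain ⟨s, _, hp'⟩ := Finset.mem_biUnion.1 hp
    exact ⟨((hWf s p).1 hp').1, ((hWf s p).1 hp').2.1⟩
  · intro _ s hs
    rw [(hc2 s hs).2.2]
    obtain ⟨p, hp⟩ := hne s hs
    have hp' := (hWf s p).1 hp
    by_cases hq : ∃ q ∈ Wf s, q ≠ p
    · obtain ⟨q, hq, hqp⟩ := hq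
      have hq' := (hWf s q).1 hq
      have hlt : MSys.lt (∑ p ∈ Wf s, MSys.ml ((c1 p.1).meas T) ((c2 p.2).meas T))
          (∑ p ∈ (Wf s).image Prod.fst ×ˢ (Wf s).image Prod.snd,
            MSys.ml ((c1 p.1).meas T) ((c2 p.2).meas T)) := by
        apply sum_lt_of_subset _ (sub_prod (Wf s)) (i := (p.1, q.2))
        · exact Finset.mem_product.2
            ⟨Finset.mem_image.2 ⟨p, hp, rfl⟩, Finset.mem_image.2 ⟨q, hq, rfl⟩⟩
        · intro hm
          have hm' := ((hWf s _).1 hm).2.2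
          have h5 : p.1 + q.2 = s := hm'
          have h6 : q.1 = p.1 := by linarith [hq'.2.2]
          have h7 : q.2 = p.2 := by linarith [hp'.2.2]
          exact hqp (Prod.ext h6 h7)
        · exact ml_ne_zero (meas_ne_zero T _) (meas_ne_zero T _)
      refine lt_of_lt_of_mle hlt ?_
      refine uem_le S1 S2 (fun r => (c1 r).meas T) (fun r => (c2 r).meas T) _ _ meas1 meas2
        (Wf s) _ ?_ rfl
      intro p hp
      exact ⟨((hWf s p).1 hp).1, ((hWf s p).1 hp).2.1⟩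
    · have hW : Wf s = {p} := by
        ext q
        rw [Finset.mem_singleton]
        constructor
        · intro h
          by_contra hcon
          exact hq ⟨q, h, hcon⟩
        · rintro rfl
          exact hp
      rw [hW, Finset.sum_singleton]
      have m1 : mle ((c1 p.1).meas T) (a.meas T) := by
        have := meas1 {p.1} (by
          intro r hr
          rw [Finset.mem_singleton.1 hr]
          exact hp'.1)
        rwa [Finset.sum_singleton] at this
      have m2 : mle ((c2 p.2).meas T) (b.meas T) := by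
        have := meas2 {p.2} (by
          intro r hr
          rw [Finset.mem_singleton.1 hr]
          exact hp'.2.1)
        rwa [Finset.sum_singleton] at this
      by_cases ha : ∃ r, a.Hom χ r
      · have hb : ¬ ∃ r, b.Hom χ r := by
          rintro ⟨r, hr⟩
          obtain ⟨r', hr'⟩ := ha
          exact hnh ⟨r' + r, r', r, rfl, hr', hr⟩
        exact lt_ml_of_mle_of_lt m1 (strict2 hb p.2 hp'.2.1) (meas_ne_zero T a)
      · exact lt_ml_of_lt_of_mle (strict1 ha p.1 hp'.1) m2 (meas_ne_zero T _)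
  · have hx := hexp (fun s => (c s).evA L χ ψ) (by
      intro s W hW
      have hW' : W = Wf s := by
        ext p
        rw [hW p, hWf s p]
      rw [hW']
      funext i
      change (c s).ev i.s = _
      rw [hc1 s i.s, Finset.sum_apply]
      rfl)
    rw [← hS] at hx
    exact hx

end LCH18
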